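import Pool.Agent.Q194.PSDMat

/-!
# MP_4d599e_an: no unital C*-algebra has an intermediate class of completable graphs
-/

namespace Pool.Agent.Results.MP_4d599e_an.UnitalDichotomy

open Pool.Agent.Q194.PSD

/-- **Theorem.** For every nonzero unital C*-algebra `A`, either `G(A)` is the class of chordal
graphs, or every graph in `G(A)` is a disjoint union of complete graphs. -/
theorem result (A : Type*) [CStarAlgebra A] [PartialOrder A] [StarOrderedRing A] [Nontrivial A] :
    (∀ (n : ℕ) (Γ : SimpleGraph (Fin n)), InG A Γ ↔ Chordal Γ) ∨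
      (∀ (n : ℕ) (Γ : SimpleGraph (Fin n)), InG A Γ → Cluster Γ) :=
  dichotomy

end Pool.Agent.Results.MP_4d599e_an.UnitalDichotomy
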